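import Mathlib

/-!
# Optimal colourings of `K_n` without a rainbow cycle of length `n - 2`

For `n = 2 ^ k`, `k ≥ 3`, identify the vertices with the group `(ℤ/2)^k` and colour `xy` by
`x + y ≠ 0`.  The colours along a cycle sum to zero, but `n - 2` distinct colours sum to the missing
colour, as all the `n - 1` colours sum to zero.
-/

set_option autoImplicit false

namespace Pool.Agent.Results.MP_4bc86c_co.NoCycleMinusTwo

/-- The chromatic index of the complete graph with `n ≥ 2` vertices. -/
def chromaticIndexK (n : ℕ) : ℕ := if Even n then n - 1 else n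

/-- `c` is a proper edge-colouring of the complete graph on `Fin n` (the values of `c` on the
diagonal elements of `Sym2 (Fin n)` are irrelevant). -/
def IsProper {n : ℕ} {κ : Type} (c : Sym2 (Fin n) → κ) : Prop :=
  ∀ x y z : Fin n, x ≠ y → x ≠ z → y ≠ z → c s(x, y) ≠ c s(x, z)

variable {k : ℕ}

/-- The group. -/
abbrev W (k : ℕ) := Fin k → ZMod 2

theorem add_self_W (x : W k) : x + x = 0 := by
  funext i
  exact CharTwo.add_self_eq_zero (x i)

theorem sum_univ_W (hk : 2 ≤ k) : ∑ x : W k, x = 0 := by
  funext i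
  rw [Finset.sum_apply]
  have hj : ∃ j : Fin k, j ≠ i := by
    by_contra h
    push Not at h
    have h1 : (Finset.univ : Finset (Fin k)).card ≤ 1 := by
      apply Finset.card_le_one.2
      intro a _ b _
      rw [h a, h b]
    rw [Finset.card_univ, Fintype.card_fin] at h1
    omega
  obtain ⟨j, hj⟩ := hj
  apply Finset.sum_involution (fun (x : W k) _ => Function.update x j (x j + 1))
  · intro x _
    rw [Function.update_of_ne hj.symm]
    exact CharTwo.add_self_eq_zero (x i)
  · intro x _ _ h
    have := congrFun h j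
    rw [Function.update_self] at this
    simp at this
  · intro x _
    exact Finset.mem_univ _
  · intro x _
    funext l
    by_cases hl : l = j
    · subst hl
      rw [Function.update_self, Function.update_self, add_assoc, CharTwo.add_self_eq_zero, add_zero]
    · rw [Function.update_of_ne hl, Function.update_of_ne hl]

/-- The labelling of the vertices. -/
noncomputable def lab (k : ℕ) : Fin (2 ^ k) ≃ W k :=
  Fintype.equivOfCardEq (by simp [W, ZMod.card])

/-- The value of an edge. -/
noncomputable def ev : Sym2 (Fin (2 ^ k)) → W k :=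
  Sym2.lift ⟨fun x y => lab k x + lab k y, fun _ _ => add_comm _ _⟩

theorem ev_mk (x y : Fin (2 ^ k)) : ev s(x, y) = lab k x + lab k y := rfl

theorem ev_ne {x y : Fin (2 ^ k)} (h : x ≠ y) : ev s(x, y) ≠ 0 := by
  rw [ev_mk]
  intro h0
  apply h
  apply (lab k).injective
  have : lab k x = lab k x + lab k y + lab k y := by rw [add_assoc, add_self_W, add_zero]
  rw [this, h0, zero_add]

theorem card_ne (k : ℕ) : Fintype.card {w : W k // w ≠ 0} = 2 ^ k - 1 := by
  rw [Fintype.card_subtype_compl]
  simp [W, ZMod.card]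

/-- The numbering of the colours. -/
noncomputable def num (k : ℕ) : {w : W k // w ≠ 0} ≃ Fin (2 ^ k - 1) :=
  Fintype.equivOfCardEq (by rw [card_ne, Fintype.card_fin])

open Classical in
/-- The colouring. -/
noncomputable def col (hk : 1 ≤ k) (e : Sym2 (Fin (2 ^ k))) : Fin (2 ^ k - 1) :=
  if h : ev e ≠ 0 then num k ⟨ev e, h⟩ else ⟨0, by have := Nat.one_lt_two_pow (n := k) (by omega); omega⟩

theorem col_inj (hk : 1 ≤ k) {e f : Sym2 (Fin (2 ^ k))} (he : ev e ≠ 0) (hf : ev f ≠ 0)
    (h : col hk e = col hk f) : ev e = ev f := by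
  unfold col at h
  rw [dif_pos he, dif_pos hf] at h
  exact congrArg Subtype.val ((num k).injective h)

theorem walk_sum {u v : Fin (2 ^ k)} (p : (⊤ : SimpleGraph (Fin (2 ^ k))).Walk u v) :
    (p.edges.map ev).sum = lab k u + lab k v := by
  induction p with
  | nil => simp [add_self_W]
  | cons h p ih =>
    rw [SimpleGraph.Walk.edges_cons, List.map_cons, List.sum_cons, ih, ev_mk]
    rw [add_assoc, ← add_assoc (lab k _) (lab k _) (lab k _), add_self_W, zero_add]

theorem ev_ne_of_mem {u v : Fin (2 ^ k)} (p : (⊤ : SimpleGraph (Fin (2 ^ k))).Walk u v)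
    {e : Sym2 (Fin (2 ^ k))} (he : e ∈ p.edges) : ev e ≠ 0 := by
  have h := p.edges_subset_edgeSet he
  revert h
  induction e using Sym2.ind with
  | _ x y =>
    intro h
    rw [SimpleGraph.mem_edgeSet, SimpleGraph.top_adj] at h
    exact ev_ne h

theorem no_rainbow (hk : 3 ≤ k) {u : Fin (2 ^ k)} (p : (⊤ : SimpleGraph (Fin (2 ^ k))).Walk u u)
    (hlen : p.length = 2 ^ k - 2) : ¬ (p.edges.map (col (k := k) (by omega))).Nodup := by
  classical
  intro hnd
  have h8 : 8 ≤ 2 ^ k := by
    calc 8 = 2 ^ 3 := by norm_num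
      _ ≤ 2 ^ k := Nat.pow_le_pow_right (by norm_num) hk
  have hnd0 : p.edges.Nodup := List.Nodup.of_map _ hnd
  have hnd' : (p.edges.map ev).Nodup := by
    apply List.Nodup.map_on _ hnd0
    intro e he f hf hef
    apply List.inj_on_of_nodup_map hnd he hf
    unfold col
    rw [dif_pos (ev_ne_of_mem p he), dif_pos (ev_ne_of_mem p hf)]
    congr 1
    exact Subtype.ext hef
  set S : Finset (W k) := (p.edges.map ev).toFinset with hS
  have hcard : S.card = 2 ^ k - 2 := by
    rw [hS, List.toFinset_card_of_nodup hnd', List.length_map, SimpleGraph.Walk.length_edges, hlen]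
  have hsub : S ⊆ Finset.univ.erase 0 := by
    intro w hw
    rw [hS, List.mem_toFinset, List.mem_map] at hw
    obtain ⟨e, he, rfl⟩ := hw
    exact Finset.mem_erase.2 ⟨ev_ne_of_mem p he, Finset.mem_univ _⟩
  have hsumS : ∑ w ∈ S, w = 0 := by
    rw [hS, List.sum_toFinset _ hnd', List.map_id', walk_sum, add_self_W]
  have hcardE : (Finset.univ.erase (0 : W k)).card = 2 ^ k - 1 := by
    rw [Finset.card_erase_of_mem (Finset.mem_univ _), Finset.card_univ]
    simp [W, ZMod.card]
  have hsd : (Finset.univ.erase (0 : W k) \ S).card = 1 := by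
    rw [Finset.card_sdiff_of_subset hsub, hcardE, hcard]
    omega
  obtain ⟨d, hd⟩ := Finset.card_eq_one.1 hsd
  have hdmem : d ∈ Finset.univ.erase (0 : W k) := by
    have : d ∈ Finset.univ.erase (0 : W k) \ S := by rw [hd]; exact Finset.mem_singleton_self d
    exact (Finset.mem_sdiff.1 this).1
  have hsumE : ∑ w ∈ Finset.univ.erase (0 : W k), w = 0 := by
    have := Finset.add_sum_erase Finset.univ (fun w : W k => w) (Finset.mem_univ 0)
    rw [zero_add] at this
    rw [this]
    exact sum_univ_W (by omega)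
  have h1 := Finset.sum_sdiff hsub (f := fun w : W k => w)
  rw [hd, Finset.sum_singleton, hsumS, hsumE, add_zero] at h1
  exact (Finset.mem_erase.1 hdmem).1 h1

/-- For `n = 2 ^ k`, `k ≥ 3`, some optimal edge-colouring of the complete graph on `n` vertices has
no rainbow cycle of length `n - 2`. -/
theorem result : ∀ k : ℕ, 3 ≤ k → ∃ c : Sym2 (Fin (2 ^ k)) → Fin (chromaticIndexK (2 ^ k)),
    IsProper c ∧ ∀ (u : Fin (2 ^ k)) (p : (⊤ : SimpleGraph (Fin (2 ^ k))).Walk u u),
      p.IsCycle → p.length = 2 ^ k - 2 → ¬ (p.edges.map c).Nodup := by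
  intro k hk
  have hE : Even (2 ^ k) := (Nat.even_pow' (by omega)).2 even_two
  have hci : chromaticIndexK (2 ^ k) = 2 ^ k - 1 := by
    unfold chromaticIndexK
    rw [if_pos hE]
  rw [hci]
  refine ⟨col (by omega), ?_, fun u p _ hlen => no_rainbow hk p hlen⟩
  intro x y z hxy hxz hyz h
  have h1 := col_inj _ (ev_ne hxy) (ev_ne hxz) h
  rw [ev_mk, ev_mk] at h1
  exact hyz ((lab k).injective (add_left_cancel h1))

end Pool.Agent.Results.MP_4bc86c_co.NoCycleMinusTwo
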